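import Pool.Agent.Helper20.QP.St1

/-! QP MODULE ARC (project QD part P, MP_d112a4_gt): area of a fundamental piece of a collar. -/

set_option autoImplicit false

open MeasureTheory Matrix Set Topology Filter
open scoped ENNReal ComplexConjugate

namespace Pool.Agent.Helper36.QP

open Pool.Agent.Helper35.PM Pool.Agent.Helper20.QD Pool.Agent.Helper20.QP

private theorem det_cl (c : ℂ) :
    ((ContinuousLinearMap.toSpanSingleton ℂ c : ℂ →L[ℂ] ℂ).restrictScalars ℝ).det = ‖c‖ ^ 2 := by
  have h : (((ContinuousLinearMap.toSpanSingleton ℂ c : ℂ →L[ℂ] ℂ).restrictScalars ℝ :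
      ℂ →L[ℝ] ℂ) : ℂ →ₗ[ℝ] ℂ) = Algebra.lmul ℝ ℂ c := by
    ext x
    simp [mul_comm]
  rw [ContinuousLinearMap.det, h, ← Algebra.norm_apply, Algebra.norm_complex_apply,
    Complex.normSq_eq_norm_sq]

private theorem one_dim (l a b : ℝ) (hl : 0 < l) (ha : 0 < a) (hab : a < b)
    (hb : b < Real.pi / l) : ∫⁻ y in Ioo a b, ENNReal.ofReal ((l / Real.sin (l * y)) ^ 2) =
    ENNReal.ofReal (l * (Real.cos (l * a) / Real.sin (l * a) -
      Real.cos (l * b) / Real.sin (l * b))) := by
  have hs : ∀ y ∈ Icc a b, Real.sin (l * y) ≠ 0 := by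
    intro y hy
    have h1 : 0 < l * y := mul_pos hl (ha.trans_le hy.1)
    have h2 : l * y < Real.pi := by
      have h3 := hy.2.trans_lt hb
      rw [lt_div_iff₀ hl] at h3
      linarith
    exact (Real.sin_pos_of_pos_of_lt_pi h1 h2).ne'
  have hcont : ContinuousOn (fun y => (l / Real.sin (l * y)) ^ 2) (Icc a b) := by
    apply ContinuousOn.pow
    apply ContinuousOn.div continuousOn_const _ hs
    fun_prop
  have hder : ∀ y ∈ uIcc a b, HasDerivAt (fun y => -(l * (Real.cos (l * y) / Real.sin (l * y))))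
      ((l / Real.sin (l * y)) ^ 2) y := by
    intro y hy
    rw [uIcc_of_le hab.le] at hy
    have h0 := hs y hy
    have h1 : HasDerivAt (fun y : ℝ => l * y) (l * 1) y := (hasDerivAt_id y).const_mul l
    have h2 := (h1.cos.div h1.sin h0).const_mul l
    have h3 := h2.neg
    refine h3.congr_deriv ?_
    have h4 := Real.sin_sq_add_cos_sq (l * y)
    field_simp
    linear_combination h4
  have hint : IntervalIntegrable (fun y => (l / Real.sin (l * y)) ^ 2) volume a b := by
    apply ContinuousOn.intervalIntegrable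
    rw [uIcc_of_le hab.le]
    exact hcont
  have hftc := intervalIntegral.integral_eq_sub_of_hasDerivAt hder hint
  have hI : IntegrableOn (fun y => (l / Real.sin (l * y)) ^ 2) (Ioo a b) :=
    (hcont.integrableOn_Icc).mono_set Ioo_subset_Icc_self
  rw [← ofReal_integral_eq_lintegral_ofReal hI (Eventually.of_forall fun y => by positivity),
    ← integral_Ioc_eq_integral_Ioo, ← intervalIntegral.integral_of_le hab.le, hftc]
  congr 1
  ring

theorem hARC : StARC := by
  intro A l q hq a b ha hab hb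
  have hl := hq.l0
  obtain ⟨S, hS⟩ : ∃ S : Set ℂ, S = {w | w ∈ Sab a b ∧ 0 ≤ w.re ∧ w.re < 1} := ⟨_, rfl⟩
  rw [← hS]
  have hSpre : S = Complex.measurableEquivRealProd ⁻¹' (Ico 0 1 ×ˢ Ioo a b) := by
    rw [hS]
    ext w
    constructor
    · rintro ⟨⟨h1, h2⟩, h3, h4⟩
      exact ⟨⟨h3, h4⟩, ⟨h1, h2⟩⟩
    · rintro ⟨⟨h3, h4⟩, ⟨h1, h2⟩⟩
      exact ⟨⟨h1, h2⟩, h3, h4⟩
  have hSm : MeasurableSet S := by
    rw [hSpre]
    exact Complex.measurableEquivRealProd.measurable (measurableSet_Ico.prod measurableSet_Ioo)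
  have hsub : S ⊆ Sm (Real.pi / l) := by
    rw [hS]
    rintro w ⟨⟨h1, h2⟩, -, -⟩
    exact ⟨ha.trans h1, h2.trans hb⟩
  have hop : IsOpen (Sm (Real.pi / l)) :=
    (isOpen_lt continuous_const Complex.continuous_im).inter
      (isOpen_lt Complex.continuous_im continuous_const)
  have hder : ∀ w ∈ S, HasFDerivWithinAt q
      ((ContinuousLinearMap.toSpanSingleton ℂ (deriv q w) : ℂ →L[ℂ] ℂ).restrictScalars ℝ) S w := by
    intro w hw
    have h1 : DifferentiableAt ℂ q w := hq.hol.differentiableAt (hop.mem_nhds (hsub hw))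
    exact (h1.hasDerivAt.hasFDerivAt.restrictScalars ℝ).hasFDerivWithinAt
  have hinj : InjOn q S := hq.bij.injOn.mono hsub
  unfold ar
  rw [lintegral_image_eq_lintegral_abs_det_fderiv_mul (volume : Measure ℂ) hSm hder hinj]
  have h1 : ∫⁻ w in S, ENNReal.ofReal
      |((ContinuousLinearMap.toSpanSingleton ℂ (deriv q w) : ℂ →L[ℂ] ℂ).restrictScalars ℝ).det| *
        ENNReal.ofReal (4 / (1 - ‖q w‖ ^ 2) ^ 2) =
      ∫⁻ w in S, ENNReal.ofReal ((l / Real.sin (l * w.im)) ^ 2) := by
    apply setLIntegral_congr_fun hSm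
    intro w hw
    simp only
    rw [det_cl, ← ENNReal.ofReal_mul (abs_nonneg _), abs_of_nonneg (by positivity),
      ← hq.den w (hsub hw)]
    congr 1
    rw [div_pow]
    ring
  rw [h1, hSpre]
  have h2 := Complex.volume_preserving_equiv_real_prod.setLIntegral_comp_preimage_emb
    Complex.measurableEquivRealProd.measurableEmbedding
    (fun p : ℝ × ℝ => ENNReal.ofReal ((l / Real.sin (l * p.2)) ^ 2)) (Ico 0 1 ×ˢ Ioo a b)
  have h3 : ∫⁻ w in Complex.measurableEquivRealProd ⁻¹' (Ico 0 1 ×ˢ Ioo a b),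
      ENNReal.ofReal ((l / Real.sin (l * w.im)) ^ 2) =
      ∫⁻ p in Ico (0 : ℝ) 1 ×ˢ Ioo a b, ENNReal.ofReal ((l / Real.sin (l * p.2)) ^ 2) := h2
  rw [h3, Measure.volume_eq_prod, ← Measure.prod_restrict, lintegral_prod _ (by
    apply Measurable.aemeasurable
    fun_prop)]
  simp only
  rw [one_dim l a b hl ha hab hb, lintegral_const, Measure.restrict_apply_univ, Real.volume_Ico]
  simp

end Pool.Agent.Helper36.QP
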