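import Pool.Agent.Helper20.QP.St3
import Pool.Agent.Helper68.QS.St3
import Pool.Agent.Helper71.TU.X5aux

/-! QP MODULE EXC (project QD part P, MP_d112a4_gt): the family seen from a point of the disc. -/

set_option autoImplicit false

open MeasureTheory Matrix Set Topology Filter
open scoped ENNReal ComplexConjugate

namespace Pool.Agent.Helper36.QP

open Pool.Agent.Helper35.PM (SL Mat)
open Pool.Agent.Helper20.QD (D den mob IsSU Fuch StSUB)
open Pool.Agent.Helper20.QP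
open Pool.Agent.Helper68.QC (nq Bel InvB Intw Sol WD)

/-! ### null sets -/

/-- push forward of almost everywhere statements by a holomorphic map -/
private theorem pushF {F : ℂ → ℂ} {O : Set ℂ} (hF : DifferentiableOn ℂ F O) {P : ℂ → Prop}
    (hP : ∀ᵐ y : ℂ, y ∈ O → P y) : ∀ᵐ z : ℂ, ∀ y ∈ O, F y = z → P y := by
  rw [ae_iff] at hP ⊢
  have h1 : {z : ℂ | ¬ ∀ y ∈ O, F y = z → P y} = F '' {y | ¬ (y ∈ O → P y)} := by
    ext z
    constructor
    · intro h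
      have h' : ¬ ∀ y ∈ O, F y = z → P y := h
      push Not at h'
      obtain ⟨y, hy, hyz, hn⟩ := h'
      exact ⟨y, fun hh => hn (hh hy), hyz⟩
    · rintro ⟨y, hy, rfl⟩
      have hy' : ¬ (y ∈ O → P y) := hy
      push Not at hy'
      intro h
      exact hy'.2 (h y hy'.1 rfl)
  rw [h1]
  apply addHaar_image_eq_zero_of_differentiableOn_of_addHaar_eq_zero _ _ hP
  have h2 : {y | ¬ (y ∈ O → P y)} ⊆ O := by
    intro y hy
    have hy' : ¬ (y ∈ O → P y) := hy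
    push Not at hy'
    exact hy'.1
  exact (hF.mono h2).restrictScalars ℝ

private theorem pullW (hNUL : StQNUL) {k : ℝ} (hk : k < 1) {μ : ℂ → ℂ} (hμ : Bel k μ)
    {P : ℂ → Prop} (hP : ∀ᵐ y : ℂ, P y) : ∀ᵐ z : ℂ, P (nq μ z) := by
  rw [ae_iff] at hP ⊢
  rw [← hNUL k hk μ hμ]
  refine measure_mono_null ?_ hP
  rintro _ ⟨z, hz, rfl⟩
  exact hz

private theorem pushW (hNUL : StQNUL) {k : ℝ} (hk : k < 1) {μ : ℂ → ℂ} (hμ : Bel k μ)
    {P : ℂ → Prop} (hP : ∀ᵐ z : ℂ, P (nq μ z)) : ∀ᵐ y : ℂ, P y := by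
  rw [ae_iff] at hP ⊢
  rw [← hNUL k hk μ hμ] at hP
  refine measure_mono_null ?_ hP
  intro y hy
  refine ⟨(nq μ).symm y, ?_, (nq μ).apply_symm_apply y⟩
  show ¬ P (nq μ ((nq μ).symm y))
  rw [(nq μ).apply_symm_apply]
  exact hy

private theorem det_one (A : SL) : (A : Mat) 0 0 * (A : Mat) 1 1 - (A : Mat) 0 1 * (A : Mat) 1 0 = 1 := by
  have h1 := A.det_coe
  rwa [Matrix.det_fin_two] at h1

/-- almost all denominators are nonzero -/
private theorem den_ae (A : SL) : ∀ᵐ z : ℂ, den A z ≠ 0 := by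
  rw [ae_iff]
  have h : {z : ℂ | ¬ den A z ≠ 0}.Subsingleton := by
    intro x hx y hy
    have hx' : (A : Mat) 1 0 * x + (A : Mat) 1 1 = 0 := not_not.1 hx
    have hy' : (A : Mat) 1 0 * y + (A : Mat) 1 1 = 0 := not_not.1 hy
    have hc : (A : Mat) 1 0 ≠ 0 := by
      intro h0
      have h1 := det_one A
      rw [h0, zero_mul, zero_add] at hx'
      rw [h0, hx'] at h1
      simp at h1
    apply mul_left_cancel₀ hc
    linear_combination hx' - hy'
  exact h.finite.measure_zero _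

private theorem mob_inv (hSUB : StSUB) (C : SL) (y : ℂ) (hy : den C y ≠ 0) :
    mob C⁻¹ (mob C y) = y ∧ den C⁻¹ (mob C y) * den C y = 1 := by
  have h1 := hSUB.2.2.2.1 C⁻¹ C y hy
  rw [inv_mul_cancel] at h1
  have h2 : mob (1 : SL) y = y := by simp [mob]
  have h3 : den (1 : SL) y = 1 := by simp [den]
  rw [h2, h3] at h1
  exact ⟨h1.1.symm, h1.2.symm⟩

private theorem mob_inv' (hSUB : StSUB) (C : SL) (ξ : ℂ) (hξ : den C⁻¹ ξ ≠ 0) :
    mob C (mob C⁻¹ ξ) = ξ ∧ den C (mob C⁻¹ ξ) ≠ 0 := by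
  have h1 := mob_inv hSUB C⁻¹ ξ hξ
  rw [inv_inv] at h1
  exact ⟨h1.1, left_ne_zero_of_mul_eq_one h1.2⟩

private theorem mob_diff (hSUB : StSUB) (C : SL) : DifferentiableOn ℂ (mob C) {y | den C y ≠ 0} :=
  fun y hy => (hSUB.2.2.2.2.1 C y hy).differentiableAt.differentiableWithinAt

/-- pull back by a Moebius map -/
private theorem pullC (hSUB : StSUB) (C : SL) {P : ℂ → Prop} (hP : ∀ᵐ ξ : ℂ, P ξ) :
    ∀ᵐ y : ℂ, den C y ≠ 0 → P (mob C y) := by
  have h1 := pushF (mob_diff hSUB C⁻¹) (P := P) (by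
    filter_upwards [hP] with y hy _
    exact hy)
  filter_upwards [h1] with y hy hd
  have h2 := mob_inv hSUB C y hd
  exact hy (mob C y) (left_ne_zero_of_mul_eq_one h2.2) h2.1

/-- push forward by a Moebius map -/
private theorem pushC (hSUB : StSUB) (C : SL) {P : ℂ → Prop}
    (hP : ∀ᵐ y : ℂ, den C y ≠ 0 → P (mob C y)) : ∀ᵐ ξ : ℂ, P ξ := by
  have h1 := pushF (mob_diff hSUB C) (P := fun y => P (mob C y)) hP
  filter_upwards [h1, den_ae C⁻¹] with ξ h2 h3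
  have h4 := mob_inv' hSUB C ξ h3
  have h5 := h2 (mob C⁻¹ ξ) h4.2 h4.1
  rw [h4.1] at h5
  exact h5

/-! ### algebra of the parameters -/

private theorem one_add_ne (s t : ℂ) (hs : ‖s‖ < 1) (ht : ‖t‖ < 1) : 1 + conj t * s ≠ 0 := by
  intro h
  have h1 : conj t * s = -1 := by linear_combination h
  have h2 : ‖conj t * s‖ = 1 := by rw [h1, norm_neg, norm_one]
  rw [norm_mul, RCLike.norm_conj] at h2
  have h3 : ‖t‖ * ‖s‖ < 1 := mul_lt_one_of_nonneg_of_lt_one_left (norm_nonneg _) ht hs.le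
  linarith

private theorem tp_lt (s t : ℂ) (hs : ‖s‖ < 1) (ht : ‖t‖ < 1) :
    ‖(s + t) / (1 + conj t * s)‖ < 1 := by
  have h0 := one_add_ne s t hs ht
  have h1 : 0 < ‖1 + conj t * s‖ := norm_pos_iff.2 h0
  rw [norm_div, div_lt_one h1]
  have hid : ‖1 + conj t * s‖ ^ 2 - ‖s + t‖ ^ 2 = (1 - ‖s‖ ^ 2) * (1 - ‖t‖ ^ 2) := by
    simp only [Complex.sq_norm, Complex.normSq_apply, Complex.add_re, Complex.add_im,
      Complex.mul_re, Complex.mul_im, Complex.conj_re, Complex.conj_im, Complex.one_re,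
      Complex.one_im]
    ring
  have hs0 := norm_nonneg s
  have ht0 := norm_nonneg t
  have h2 : 0 < (1 - ‖s‖ ^ 2) * (1 - ‖t‖ ^ 2) := mul_pos (by nlinarith) (by nlinarith)
  apply lt_of_pow_lt_pow_left₀ 2 h1.le
  linarith

private theorem tp_id (s t : ℂ) (hs : ‖s‖ < 1) (ht : ‖t‖ < 1) :
    (s + t) / (1 + conj t * s) - t = s * (1 - conj t * ((s + t) / (1 + conj t * s))) := by
  have h0 := one_add_ne s t hs ht
  obtain ⟨c, hc⟩ : ∃ c : ℂ, c = conj t := ⟨_, rfl⟩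
  rw [← hc] at h0 ⊢
  have h2 : (s + t) / (1 + c * s) * (1 + c * s) = s + t := div_mul_cancel₀ _ h0
  have h3 : ((s + t) / (1 + c * s) - t) * (1 + c * s) =
      (s * (1 - c * ((s + t) / (1 + c * s)))) * (1 + c * s) := by
    linear_combination (1 + s * c) * h2
  exact mul_right_cancel₀ h0 h3

/-- the coefficient of the family -/
private noncomputable def mt (κ ν : ℂ → ℂ) (t z : ℂ) : ℂ := κ z + t * ν z

private theorem bel_mt {κ ν : ℂ → ℂ} {k : ℝ} (hκ : Bel k κ) (hκ0 : ∀ z : ℂ, ‖z‖ ≤ 1 → κ z = 0)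
    (hνm : Measurable ν) (hν1 : ∀ z, ‖ν z‖ ≤ 1) (hν0 : ∀ z : ℂ, 1 ≤ ‖z‖ → ν z = 0) (t : ℂ)
    (K : ℝ) (hkK : k ≤ K) (htK : ‖t‖ ≤ K) : Bel K (mt κ ν t) := by
  refine ⟨hκ.meas.add (hνm.const_mul t), fun z => ?_⟩
  unfold mt
  rcases le_total ‖z‖ 1 with h | h
  · rw [hκ0 z h, zero_add, norm_mul]
    exact (mul_le_of_le_one_right (norm_nonneg _) (hν1 z)).trans htK
  · rw [hν0 z h, mul_zero, add_zero]
    exact (hκ.le z).trans hkK

/-! ### the real linear map `LT` -/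

private theorem one_add_t (t : ℂ) (ht : ‖t‖ < 1) : 1 + t ≠ 0 := by
  intro h
  have h1 : t = -1 := by linear_combination h
  rw [h1, norm_neg, norm_one] at ht
  linarith

private theorem LT_surj (t : ℂ) (ht : ‖t‖ < 1) (x : ℂ) : ∃ w : ℂ, Pool.Agent.Helper20.QP.LT t w = x := by
  have h0 := one_add_t t ht
  have h1 : (1 : ℂ) - t * conj t ≠ 0 := by
    intro h
    have h2 : t * conj t = 1 := by linear_combination -h
    have h3 := congrArg norm h2
    rw [norm_mul, RCLike.norm_conj, norm_one] at h3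
    have := norm_nonneg t
    nlinarith
  have e1 : ∀ X : ℂ, conj ((X - t * conj X) / (1 - t * conj t)) =
      (conj X - conj t * X) / (1 - t * conj t) := by
    intro X
    simp only [map_div₀, map_sub, map_mul, Complex.conj_conj, map_one]
    rw [mul_comm (conj t) t]
  refine ⟨((1 + t) * x - t * conj ((1 + t) * x)) / (1 - t * conj t), ?_⟩
  unfold Pool.Agent.Helper20.QP.LT
  rw [e1]
  have h5 : ((1 + t) * x - t * conj ((1 + t) * x)) / (1 - t * conj t) +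
      t * ((conj ((1 + t) * x) - conj t * ((1 + t) * x)) / (1 - t * conj t)) = (1 + t) * x := by
    rw [mul_div_assoc', ← add_div, div_eq_iff h1]
    ring
  rw [h5, mul_div_cancel_left₀ _ h0]

private theorem LT_dz (t c w : ℂ) :
    HasFDerivAt (fun x : ℂ => Pool.Agent.Helper20.QP.LT t (x - c))
      (Pool.Agent.Helper68.QC.lin (1 / (1 + t)) (t / (1 + t))) w := by
  have h1 : HasFDerivAt (fun x : ℂ => Pool.Agent.Helper68.QC.lin (1 / (1 + t)) (t / (1 + t)) (x - c))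
      (Pool.Agent.Helper68.QC.lin (1 / (1 + t)) (t / (1 + t))) w := by
    have h2 := (Pool.Agent.Helper68.QC.lin (1 / (1 + t)) (t / (1 + t))).hasFDerivAt.comp w
      ((hasFDerivAt_id (𝕜 := ℝ) w).sub_const c)
    exact h2
  refine h1.congr_of_eventuallyEq (Eventually.of_forall fun x => ?_)
  simp only [Pool.Agent.Helper68.QC.lin_apply]
  unfold Pool.Agent.Helper20.QP.LT
  ring

private theorem LT_smooth (t c : ℂ) : ContDiff ℝ 1 (fun x : ℂ => Pool.Agent.Helper20.QP.LT t (x - c)) := by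
  have h1 : (fun x : ℂ => Pool.Agent.Helper20.QP.LT t (x - c)) =
      fun x => Pool.Agent.Helper68.QC.lin (1 / (1 + t)) (t / (1 + t)) (x - c) := by
    funext x
    simp only [Pool.Agent.Helper68.QC.lin_apply]
    unfold Pool.Agent.Helper20.QP.LT
    ring
  rw [h1]
  exact (Pool.Agent.Helper68.QC.lin (1 / (1 + t)) (t / (1 + t))).contDiff.comp
    (contDiff_id.sub contDiff_const)

/-! ### steps (1), (2): the coefficient `ν1` -/

private theorem stepD (hQCVM : StQCVM) (hCMX : Pool.Agent.Helper68.QS.StCMX) {κ ν : ℂ → ℂ}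
    {K : ℝ} (hK : K < 1) (t t' : ℂ) (h1 : Bel K (mt κ ν t)) (h2 : Bel K (mt κ ν t')) :
    ∃ a : ℂ → ℂ, (∀ z, a z ≠ 0) ∧
      WD univ (nq (mt κ ν t)) a (fun z => mt κ ν t z * a z) ∧
      ∃ δ < 1, ∃ ν1 : ℂ → ℂ, Bel δ ν1 ∧ (∀ z, nq (mt κ ν t') z = nq ν1 (nq (mt κ ν t) z)) ∧
      ∀ᵐ z, ν1 (nq (mt κ ν t) z) * (conj (a z) * (1 - conj (mt κ ν t z) * mt κ ν t' z)) =
        a z * (mt κ ν t' z - mt κ ν t z) := by
  obtain ⟨a, b, hwd, hb, ham, hne, -⟩ := hQCVM K hK _ h1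
  have hb' : b = fun z => mt κ ν t z * a z := funext hb
  rw [hb'] at hwd
  obtain ⟨δ, hδ, ν1, hν1, h3, h4⟩ := hCMX K hK _ _ h2 h1 a ⟨hwd, ham, hne⟩
  exact ⟨a, hne, hwd, δ, hδ, ν1, hν1, h3, h4⟩

private theorem stepD1 {κ ν : ℂ → ℂ} {k : ℝ} (hk : k < 1) (hκ : Bel k κ) (t t' : ℂ)
    {a : ℂ → ℂ} (hne : ∀ z, a z ≠ 0) {z : ℂ} {x : ℂ}
    (h : x * (conj (a z) * (1 - conj (mt κ ν t z) * mt κ ν t' z)) =
        a z * (mt κ ν t' z - mt κ ν t z)) (hz : ν z = 0) : x = 0 := by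
  unfold mt at h
  rw [hz, mul_zero, mul_zero, add_zero, sub_self, mul_zero] at h
  have h1 : conj (a z) ≠ 0 := by
    rw [Ne, map_eq_zero]
    exact hne z
  have h2 : (1 : ℂ) - conj (κ z) * κ z ≠ 0 := by
    have h3 : ‖κ z‖ < 1 := (hκ.le z).trans_lt hk
    have h4 := one_add_ne (-κ z) (κ z) (by rwa [norm_neg]) h3
    intro h5
    apply h4
    linear_combination h5
  rcases mul_eq_zero.1 h with h3 | h3
  · exact h3
  · exact absurd h3 (mul_ne_zero h1 h2)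

private theorem stepD2 {κ ν : ℂ → ℂ} (s t : ℂ) (hs : ‖s‖ < 1) (ht : ‖t‖ < 1)
    {a : ℂ → ℂ} {z : ℂ} {x : ℂ}
    (h : x * (conj (a z) * (1 - conj (mt κ ν t z) * mt κ ν ((s + t) / (1 + conj t * s)) z)) =
        a z * (mt κ ν ((s + t) / (1 + conj t * s)) z - mt κ ν t z)) (hz : ‖ν z‖ = 1)
    (hκz : κ z = 0) : x * conj (a z) = s * a z * ν z := by
  have hid := tp_id s t hs ht
  have htp := tp_lt s t hs ht
  obtain ⟨t', ht'⟩ : ∃ t' : ℂ, t' = (s + t) / (1 + conj t * s) := ⟨_, rfl⟩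
  rw [← ht'] at h hid htp
  have h0 : (1 : ℂ) - conj t * t' ≠ 0 := by
    have h4 := one_add_ne (-t') t (by rwa [norm_neg]) ht
    intro h5
    apply h4
    linear_combination h5
  have hn : conj (ν z) * ν z = 1 := by
    rw [← Complex.normSq_eq_conj_mul_self, Complex.normSq_eq_norm_sq, hz]
    simp
  unfold mt at h
  rw [hκz, zero_add, zero_add, map_mul] at h
  have h2 : (x * conj (a z)) * (1 - conj t * t') = (s * a z * ν z) * (1 - conj t * t') := by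
    linear_combination h + (a z * ν z) * hid + x * conj (a z) * (conj t * t') * hn
  exact mul_right_cancel₀ h0 h2

/-! ### step (2): the strip -/

private theorem openS (a b : ℝ) : IsOpen (Sab a b) :=
  (isOpen_lt continuous_const Complex.continuous_im).inter
    (isOpen_lt Complex.continuous_im continuous_const)

private theorem openSm (m : ℝ) : IsOpen (Sm m) :=
  (isOpen_lt continuous_const Complex.continuous_im).inter
    (isOpen_lt Complex.continuous_im continuous_const)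

private theorem stepE (hQUNW : StQUNW) (hPRW : Pool.Agent.Helper68.QC.StPRW) {W : ℂ → ℂ}
    {aW bW : ℂ → ℂ} (hW : WD univ W aW bW) (t : ℂ) {S : Set ℂ} (hS : IsOpen S)
    {q : ℂ → ℂ} (hq : DifferentiableOn ℂ q S) (hqi : InjOn q S) (hq' : ∀ w ∈ S, deriv q w ≠ 0)
    (c : ℂ) {g : ℂ → ℂ} {T : Set ℂ} (hT : IsOpen T) (hg : DifferentiableOn ℂ g T)
    (hST : ∀ w ∈ S, Pool.Agent.Helper20.QP.LT t (w - c) ∈ T)
    (hgq : ∀ w ∈ S, W (q w) = g (Pool.Agent.Helper20.QP.LT t (w - c))) :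
    ∀ᵐ w : ℂ, w ∈ S → aW (q w) * deriv q w =
      deriv g (Pool.Agent.Helper20.QP.LT t (w - c)) * (1 / (1 + t)) := by
  have h1 := hPRW univ S W aW bW q isOpen_univ hS hq hqi (mapsTo_univ _ _) hq' hW
  have h2 : ContDiffOn ℝ 1 (fun w => g (Pool.Agent.Helper20.QP.LT t (w - c))) S := by
    have h3 : ContDiffOn ℝ 1 g T := ((hg.contDiffOn hT : ContDiffOn ℂ 1 g T)).restrict_scalars ℝ
    exact h3.comp (LT_smooth t c).contDiffOn hST
  have h4 := Pool.Agent.Helper68.QC.wd_smoothOn hS h2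
  have h5 := (hQUNW S _ _ _ _ _ _ hS hgq h1 h4).1
  rw [ae_restrict_iff' hS.measurableSet] at h5
  filter_upwards [h5] with w hw hwS
  rw [hw hwS]
  have h6 := LT_dz t c w
  have h7 : DifferentiableAt ℂ g (Pool.Agent.Helper20.QP.LT t (w - c)) :=
    (hg _ (hST w hwS)).differentiableAt (hT.mem_nhds (hST w hwS))
  have h8 := Pool.Agent.Helper68.QC.dz_comp (g := g)
    (f := fun x : ℂ => Pool.Agent.Helper20.QP.LT t (x - c)) (z := w)
    (h7.restrictScalars ℝ) h6.differentiableAt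
  rw [h8, Pool.Agent.Helper68.QC.dz_holo h7, Pool.Agent.Helper68.QC.dzb_holo h7,
    (Pool.Agent.Helper68.QC.dz_of_has h6).1]
  ring

/-! ### step (3): intertwining -/

private theorem intwD {A B B' : SL} {W : ℂ ≃ₜ ℂ} {W' V : ℂ → ℂ} (h1 : Intw A B W)
    (h2 : Intw A B' W') (h3 : ∀ z, W' z = V (W z)) : Intw B B' V := by
  refine ⟨fun y => ?_, fun y hy => ?_, ?_, fun h => ?_⟩
  · obtain ⟨z, rfl⟩ := W.surjective y
    rw [← h3 z]
    exact (h1.1 z).symm.trans (h2.1 z)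
  · obtain ⟨z, rfl⟩ := W.surjective y
    have hz : Pool.Agent.Helper68.QC.den A z ≠ 0 := fun h => hy ((h1.1 z).1 h)
    rw [← h1.2.1 z hz, ← h3, ← h3]
    exact h2.2.1 z hz
  · exact h1.2.2.1.symm.trans h2.2.2.1
  · have hA : A 1 0 ≠ 0 := fun h' => h (h1.2.2.1.1 h')
    rw [← h1.2.2.2 hA, ← h3]
    exact h2.2.2.2 hA

/-- the map `Φ` intertwines -/
private theorem phi_mob (hSUB : StSUB) {W : ℂ → ℂ} {A B C r : SL} {y : ℂ}
    (hI : Intw A B W) (hr : r = C * B * C⁻¹) (hA : den A y ≠ 0)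
    (hC : den C (W y) ≠ 0) (hC' : den C (W (mob A y)) ≠ 0) :
    mob C (W (mob A y)) = mob r (mob C (W y)) ∧ den r (mob C (W y)) ≠ 0 := by
  have hB : den B (W y) ≠ 0 := by
    have h1 : den A y = 0 ↔ den B (W y) = 0 := hI.1 y
    exact fun h => hA (h1.2 h)
  have h2 : W (mob A y) = mob B (W y) := hI.2.1 y hA
  have h3 := hSUB.2.2.2.1 C B (W y) hB
  have h4 := hSUB.2.2.2.1 r C (W y) hC
  have h5 : r * C = C * B := by
    rw [hr]
    group
  rw [h5] at h4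
  rw [h2, ← h3.1, h4.1]
  refine ⟨rfl, ?_⟩
  rw [h2] at hC'
  have h6 : den (C * B) (W y) ≠ 0 := by
    rw [h3.2]
    exact mul_ne_zero hC' hB
  rw [h4.2] at h6
  exact left_ne_zero_of_mul h6

/-- a.e. equal coefficients have the same normalised solution -/
private theorem nq_congr (hQEX : StQEX) (hQUNI : StQUNI) {δ δ' : ℝ} (hδ : δ < 1) (hδ' : δ' < 1)
    {μ μ' : ℂ → ℂ} (h : Bel δ μ) (h' : Bel δ' μ') (he : ∀ᵐ z : ℂ, μ z = μ' z) :
    nq μ = nq μ' := by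
  obtain ⟨h0, h1, a, b, hwd, hb⟩ := hQEX δ hδ μ h
  apply hQUNI δ' hδ' μ' h' (nq μ) h0 h1 ∅ finite_empty
  rw [compl_empty]
  refine ⟨a, b, hwd, ?_⟩
  rw [Measure.restrict_univ] at hb ⊢
  filter_upwards [hb, he] with z h2 h3
  rw [h2, h3]

/-! ### step (4): the base case -/

private theorem base_alg {x y a p n G s t m f' d : ℂ}
    (hx : x * conj a = s * a * n) (hn : n * conj p = p) (he : a * p = G * (1 / (1 + t)))
    (ht : 1 + t ≠ 0) (hG : G = f' * d ^ 2)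
    (hm : m * conj f' = ((1 + conj t) / (1 + t)) * f')
    (hy : y * d ^ 2 = x * conj d ^ 2) (hd : d ≠ 0) (hf : f' ≠ 0) : y = s * m := by
  have ht' : 1 + conj t ≠ 0 := by
    intro h
    apply ht
    have := congrArg conj h
    simpa using this
  have h1 : G = a * p * (1 + t) := by
    rw [he, mul_assoc, one_div, inv_mul_cancel₀ ht, mul_one]
  have h2 : conj G = conj a * conj p * (1 + conj t) := by
    rw [h1, map_mul, map_mul, map_add, map_one]
  have h3 : x * conj G = s * a * p * (1 + conj t) := by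
    rw [h2]
    linear_combination (conj p * (1 + conj t)) * hx + (s * a * (1 + conj t)) * hn
  have h4 : m * conj f' * (1 + t) = (1 + conj t) * f' := by
    rw [hm]
    field_simp
  have h5 : conj G = conj f' * conj d ^ 2 := by rw [hG, map_mul, map_pow]
  have hf' : conj f' ≠ 0 := by rwa [Ne, map_eq_zero]
  have h6 : y * (d ^ 2 * conj f' * (1 + t)) = s * m * (d ^ 2 * conj f' * (1 + t)) := by
    linear_combination (conj f' * (1 + t)) * hy - x * (1 + t) * h5 + (1 + t) * h3 -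
      s * (1 + conj t) * h1 + s * (1 + conj t) * hG - s * d ^ 2 * h4
  exact mul_right_cancel₀ (mul_ne_zero (mul_ne_zero (pow_ne_zero 2 hd) hf') ht) h6

private theorem inv_alg {y y' m m' e s : ℂ} (he : e ≠ 0) (h1 : y' * e ^ 2 = y * conj e ^ 2)
    (h2 : m' * conj ((e ^ 2)⁻¹) = m * (e ^ 2)⁻¹) (h3 : y = s * m) : y' = s * m' := by
  have he' : conj e ≠ 0 := by rwa [Ne, map_eq_zero]
  have h4 : m' * e ^ 2 = m * conj e ^ 2 := by
    rw [map_inv₀, map_pow] at h2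
    field_simp at h2
    linear_combination h2
  have h5 : y' * e ^ 2 = s * m' * e ^ 2 := by
    rw [h1, h3]
    linear_combination (-s) * h4
  exact mul_right_cancel₀ (pow_ne_zero 2 he) h5

/-- EXC -/
theorem hEXC (hSUB : StSUB) (hMBC : StMBC) (hLEQ : StLEQ) (hQEX : StQEX) (hQUNI : StQUNI)
    (hQNUL : StQNUL) (hQUNW : StQUNW) (hGINC : StGINC) (hQCVM : StQCVM)
    (hCMX : Pool.Agent.Helper68.QS.StCMX) (hPRW : Pool.Agent.Helper68.QC.StPRW) : StEXC := by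
  intro Γ _ _ σ ρ κ ν k a h q R t r C f μ hst hνm hν1 hν0 hνi hh hq hqi hqD hνq hνz hR ht hr hden
    hf hfi hfq hμm hμ1 hμi hμz hμq s hs
  have hLEQt := hLEQ t 0 h ht le_rfl hh
  have hfim : ∀ w : ℂ, (Pool.Agent.Helper20.QP.LT t w).im = w.im * Pool.Agent.Helper20.QP.hf t :=
    hLEQt.2.2.1
  have hfpos : 0 < Pool.Agent.Helper20.QP.hf t := hLEQt.2.2.2.1
  have hR' : ∀ t ∈ Metric.ball (0 : ℂ) 1, ∀ γ, Intw (σ γ) (R t γ) (nq (mt κ ν t)) := hR
  have hden' : ∀ z ∈ D, den C (nq (mt κ ν t) z) ≠ 0 := hden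
  have hfq' : ∀ w ∈ Sab a (a + h), f (Pool.Agent.Helper20.QP.LT t (w - a * Complex.I)) =
    mob C (nq (mt κ ν t) (q w)) := hfq
  have hμi' : ∀ γ, ∀ z ∈ D, μ (mob (r γ) (mob C (nq (mt κ ν t) z))) *
    conj ((den (r γ) (mob C (nq (mt κ ν t) z)) ^ 2)⁻¹) =
    μ (mob C (nq (mt κ ν t) z)) * (den (r γ) (mob C (nq (mt κ ν t) z)) ^ 2)⁻¹ := hμi
  clear hR hden hfq hμi
  obtain ⟨t', ht'⟩ : ∃ t' : ℂ, t' = (s + t) / (1 + conj t * s) := ⟨_, rfl⟩
  have htp : ‖t'‖ < 1 := by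
    rw [ht']
    exact tp_lt s t hs ht
  have h1t := one_add_t t ht
  -- the constants
  obtain ⟨K, hK⟩ : ∃ K : ℝ, K = max k (max ‖t‖ ‖t'‖) := ⟨_, rfl⟩
  have hK1 : K < 1 := by
    rw [hK]
    exact max_lt hst.k1 (max_lt ht htp)
  have hkK : k ≤ K := by
    rw [hK]
    exact le_max_left _ _
  have htK : ‖t‖ ≤ K := by
    rw [hK]
    exact (le_max_left _ _).trans (le_max_right _ _)
  have htK' : ‖t'‖ ≤ K := by
    rw [hK]
    exact (le_max_right _ _).trans (le_max_right _ _)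
  have hB1 := bel_mt hst.bel hst.in0 hνm hν1 hν0 t K hkK htK
  have hB2 := bel_mt hst.bel hst.in0 hνm hν1 hν0 t' K hkK htK'
  obtain ⟨a1, hane, hwd, δ, hδ, ν1, hν1B, hcomp, hrel⟩ := stepD hQCVM hCMX hK1 t t' hB1 hB2
  obtain ⟨ν2, C', hν2B, hν2rel, hν2map, hν2int⟩ := hMBC δ hδ ν1 hν1B C
  -- intertwining
  have hint : ∀ γ, Intw (r γ) (C' * R t' γ * C'⁻¹) (nq ν2) := by
    intro γ
    rw [hr γ]
    exact hν2int _ _ (intwD (hR' t (by simpa using ht) γ) (hR' t' (by simpa using htp) γ) hcomp)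
  -- the strips
  have hSo := openS a (a + h)
  have hq' : ∀ w ∈ Sab a (a + h), deriv q w ≠ 0 := fun w hw =>
    Pool.TU.X5.deriv_ne_zero_of_injOn hSo hq hqi hw
  have hf' : ∀ w ∈ Sm (h * Pool.Agent.Helper20.QP.hf t), deriv f w ≠ 0 := fun w hw =>
    Pool.TU.X5.deriv_ne_zero_of_injOn (openSm _) hf hfi hw
  have hST : ∀ w ∈ Sab a (a + h),
      Pool.Agent.Helper20.QP.LT t (w - a * Complex.I) ∈ Sm (h * Pool.Agent.Helper20.QP.hf t) := by
    rintro w ⟨hw1, hw2⟩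
    have h1 : (w - a * Complex.I).im = w.im - a := by simp
    constructor
    · show 0 < (Pool.Agent.Helper20.QP.LT t (w - a * Complex.I)).im
      rw [hfim, h1]
      exact mul_pos (by linarith) hfpos
    · show (Pool.Agent.Helper20.QP.LT t (w - a * Complex.I)).im < _
      rw [hfim, h1]
      exact mul_lt_mul_of_pos_right (by linarith) hfpos
  have hTS : ∀ ζ ∈ Sm (h * Pool.Agent.Helper20.QP.hf t), ∃ w ∈ Sab a (a + h),
      Pool.Agent.Helper20.QP.LT t (w - a * Complex.I) = ζ := by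
    rintro ζ ⟨hz1, hz2⟩
    obtain ⟨w', hw'⟩ := LT_surj t ht ζ
    have h1 := hfim w'
    rw [hw'] at h1
    rw [h1] at hz1 hz2
    have h2 : 0 < w'.im := by
      by_contra hc
      have := mul_nonpos_of_nonpos_of_nonneg (not_lt.1 hc) hfpos.le
      linarith
    have h3 : w'.im < h := lt_of_mul_lt_mul_right hz2 hfpos.le
    refine ⟨w' + a * Complex.I, ⟨?_, ?_⟩, ?_⟩
    · simp [h2]
    · simp
      linarith
    · rw [add_sub_cancel_right, hw']
  -- the function g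
  obtain ⟨g, hg⟩ : ∃ g : ℂ → ℂ, g = fun ζ => mob C⁻¹ (f ζ) := ⟨_, rfl⟩
  have hgden : ∀ ζ ∈ Sm (h * Pool.Agent.Helper20.QP.hf t), den C⁻¹ (f ζ) ≠ 0 := by
    intro ζ hζ
    obtain ⟨w, hw, rfl⟩ := hTS ζ hζ
    rw [hfq' w hw]
    exact left_ne_zero_of_mul_eq_one (mob_inv hSUB C _ (hden' _ (hqD hw))).2
  have hgq : ∀ w ∈ Sab a (a + h), nq (mt κ ν t) (q w) =
      g (Pool.Agent.Helper20.QP.LT t (w - a * Complex.I)) := by
    intro w hw
    rw [hg]
    show _ = mob C⁻¹ (f _)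
    rw [hfq' w hw]
    exact (mob_inv hSUB C _ (hden' _ (hqD hw))).1.symm
  have hgd : DifferentiableOn ℂ g (Sm (h * Pool.Agent.Helper20.QP.hf t)) := by
    rw [hg]
    exact (mob_diff hSUB C⁻¹).comp hf hgden
  have hE := pushF hq (stepE hQUNW hPRW hwd t hSo hq hqi hq' (a * Complex.I) (openSm _) hgd hST hgq)
  -- derivative of f
  have hfg : ∀ w ∈ Sab a (a + h),
      deriv g (Pool.Agent.Helper20.QP.LT t (w - a * Complex.I)) =
        deriv f (Pool.Agent.Helper20.QP.LT t (w - a * Complex.I)) *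
          den C (nq (mt κ ν t) (q w)) ^ 2 := by
    intro w hw
    have h1 := hST w hw
    have h2 := hgq w hw
    have h3 := hden' _ (hqD hw)
    have h6 := (mob_inv hSUB C _ h3).2
    rw [← hfq' w hw] at h6
    obtain ⟨ζ, hζ⟩ : ∃ ζ, ζ = Pool.Agent.Helper20.QP.LT t (w - a * Complex.I) := ⟨_, rfl⟩
    rw [← hζ] at h1 h2 h6 ⊢
    have h4 : HasDerivAt f (deriv f ζ) ζ :=
      ((hf ζ h1).differentiableAt ((openSm _).mem_nhds h1)).hasDerivAt
    have h5 := (hSUB.2.2.2.2.1 C⁻¹ (f ζ) (hgden ζ h1)).comp ζ h4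
    have h7 : HasDerivAt g ((den C⁻¹ (f ζ) ^ 2)⁻¹ * deriv f ζ) ζ := by
      rw [hg]
      exact h5
    rw [h7.deriv]
    have h8 : (den C⁻¹ (f ζ) ^ 2)⁻¹ = den C (nq (mt κ ν t) (q w)) ^ 2 := by
      rw [eq_inv_of_mul_eq_one_right h6, inv_pow]
    rw [h8, mul_comm]
  -- a.e. relations
  have htb : t ∈ Metric.ball (0 : ℂ) 1 := by simpa using ht
  have hW2 : ∀ᵐ z : ℂ, ν2 (mob C (nq (mt κ ν t) z)) * den C (nq (mt κ ν t) z) ^ 2 =
      ν1 (nq (mt κ ν t) z) * conj (den C (nq (mt κ ν t) z)) ^ 2 :=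
    pullW hQNUL hK1 hB1 hν2rel
  have hbase : ∀ᵐ z : ℂ, ∀ w ∈ Sab a (a + h), q w = z →
      ν2 (mob C (nq (mt κ ν t) z)) = s * μ (mob C (nq (mt κ ν t) z)) := by
    filter_upwards [hE, hrel, hW2] with z h1 h2 h3 w hw hz
    have h4 := h1 w hw hz
    subst hz
    have h5 : ‖ν (q w)‖ = 1 := by
      have h6 := congrArg norm (hνq w hw)
      rw [norm_mul, RCLike.norm_conj] at h6
      have h7 : ‖deriv q w‖ ≠ 0 := norm_ne_zero_iff.2 (hq' w hw)
      exact mul_right_cancel₀ h7 (by rw [h6, one_mul])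
    have h8 : κ (q w) = 0 := by
      apply hst.in0
      have h9 : ‖q w‖ < 1 := mem_ball_zero_iff.1 (hqD hw)
      exact h9.le
    rw [ht'] at h2
    have h10 := base_alg (stepD2 s t hs ht h2 h5 h8) (hνq w hw) h4 h1t (hfg w hw)
      (hμq _ (hST w hw)) h3 (hden' _ (hqD hw)) (hf' _ (hST w hw))
    rw [hfq' w hw] at h10
    exact h10
  have hmD : ∀ γ, ∀ y ∈ D, den (σ γ) y ≠ 0 ∧ mob (σ γ) y ∈ D := by
    intro γ y hy
    have h1 := hSUB.1 _ (hst.fs.1 γ)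
    have hy' : ‖y‖ < 1 := mem_ball_zero_iff.1 hy
    exact ⟨h1.2.1 y (mem_closedBall_zero_iff.2 hy'.le), h1.2.2.1.mapsTo hy⟩
  have hinv : ∀ γ, ∀ᵐ z : ℂ, z ∈ D →
      ν2 (mob (r γ) (mob C (nq (mt κ ν t) z))) * den (r γ) (mob C (nq (mt κ ν t) z)) ^ 2 =
      ν2 (mob C (nq (mt κ ν t) z)) * conj (den (r γ) (mob C (nq (mt κ ν t) z))) ^ 2 := by
    intro γ
    have h1 : ∀ᵐ ξ : ℂ, ν2 (mob (r γ) ξ) * den (r γ) ξ ^ 2 = ν2 ξ * conj (den (r γ) ξ) ^ 2 :=
      hGINC δ hδ ν2 hν2B _ _ (hint γ)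
    filter_upwards [pullW hQNUL hK1 hB1 (pullC hSUB C h1)] with z hz hzD
    exact hz (hden' z hzD)
  have htrans : ∀ᵐ z : ℂ, ∀ γ, ∀ y ∈ D, mob (σ γ) y = z → y ∈ q '' Sab a (a + h) →
      ν2 (mob C (nq (mt κ ν t) z)) = s * μ (mob C (nq (mt κ ν t) z)) := by
    rw [ae_all_iff]
    intro γ
    have hd : DifferentiableOn ℂ (mob (σ γ)) D :=
      (mob_diff hSUB (σ γ)).mono (fun z hz => (hmD γ z hz).1)
    have h1 := pushF hd (P := fun y => y ∈ q '' Sab a (a + h) →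
      ν2 (mob C (nq (mt κ ν t) (mob (σ γ) y))) =
        s * μ (mob C (nq (mt κ ν t) (mob (σ γ) y)))) (by
      filter_upwards [hinv γ, hbase] with y h2 h3 hy
      rintro ⟨w, hw, rfl⟩
      have h4 := phi_mob hSUB (hR' t htb γ) (hr γ) (hmD γ _ hy).1 (hden' _ hy)
        (hden' _ (hmD γ _ hy).2)
      rw [h4.1]
      exact inv_alg h4.2 (h2 hy) (hμi' γ _ hy) (h3 w hw rfl))
    filter_upwards [h1] with z h2 y hy hyz
    have h3 := h2 y hy hyz
    rw [hyz] at h3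
    exact h3
  have hall : ∀ᵐ z : ℂ, den C (nq (mt κ ν t) z) ≠ 0 →
      ν2 (mob C (nq (mt κ ν t) z)) = s * μ (mob C (nq (mt κ ν t) z)) := by
    filter_upwards [htrans, hrel, hW2] with z h1 h2 h3 h4
    by_cases h5 : ∃ γ, z ∈ mob (σ γ) '' (q '' Sab a (a + h))
    · obtain ⟨γ, y, hy, rfl⟩ := h5
      refine h1 γ y ?_ rfl hy
      obtain ⟨w, hw, rfl⟩ := hy
      exact hqD hw
    · push Not at h5
      have h6 := hνz z h5
      have h7 := stepD1 hst.k1 hst.bel t t' hane h2 h6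
      rw [h7, zero_mul] at h3
      have h8 : ν2 (mob C (nq (mt κ ν t) z)) = 0 := by
        rcases mul_eq_zero.1 h3 with h | h
        · exact h
        · exact absurd h (pow_ne_zero 2 h4)
      rw [h8, hμz _ ?_, mul_zero]
      rintro γ ⟨_, ⟨ζ, hζ, rfl⟩, hz⟩
      obtain ⟨w, hw, rfl⟩ := hTS ζ hζ
      rw [hfq' w hw] at hz
      have hyD : q w ∈ D := hqD hw
      have h9 := phi_mob hSUB (hR' t htb γ) (hr γ) (hmD γ _ hyD).1 (hden' _ hyD)
        (hden' _ (hmD γ _ hyD).2)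
      rw [← h9.1] at hz
      have h10 := (mob_inv hSUB C _ h4).1
      have h11 := (mob_inv hSUB C _ (hden' _ (hmD γ _ hyD).2)).1
      rw [hz] at h11
      have h12 := h11.symm.trans h10
      exact h5 γ ⟨q w, ⟨w, hw, rfl⟩, (nq _).injective h12⟩
  have hfin : ∀ᵐ ξ : ℂ, ν2 ξ = s * μ ξ := pushC hSUB C (pushW hQNUL hK1 hB1 hall)
  have hBs : Bel ‖s‖ (fun z => s * μ z) := ⟨hμm.const_mul s, fun z => by
    rw [norm_mul]
    exact mul_le_of_le_one_right (norm_nonneg _) (hμ1 z)⟩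
  have hnq := nq_congr hQEX hQUNI hδ hs hν2B hBs hfin
  rw [← ht', ← hnq]
  exact ⟨C', hint⟩

end Pool.Agent.Helper36.QP
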